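import Mathlib

/-!
# Symmetric tables from Taylor operations

`E` is a set of edges of an `r`-partite hypergraph (written by their coordinates), closed under
operations `t i` of arity `k`, two edges having at most one common coordinate. Around the edge
`A j₀ = B j₀` there is a family of triangles `A j₀`, `A j`, `B j`, `j ∈ J`: the edges `A j` have the
coordinate `c₁` of `A j₀`, the edges `B j` the coordinate `c₀`, and `A j`, `B j` have the same
coordinate `c₂`.
-/

set_option autoImplicit false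

namespace Pool.T9h45.TP

open Finset

/-- Any two members with two common coordinates are equal. -/
def Lin {r : ℕ} {X : Fin r → Type} (E : Set (∀ i, X i)) : Prop :=
  ∀ x ∈ E, ∀ y ∈ E, ∀ i j, i ≠ j → x i = y i → x j = y j → x = y

/-- `E` is closed under the componentwise operations `t i`. -/
def Closed {r k : ℕ} {X : Fin r → Type} (t : ∀ i, (Fin k → X i) → X i) (E : Set (∀ i, X i)) :
    Prop :=
  ∀ F : Fin k → ∀ i, X i, (∀ κ, F κ ∈ E) → (fun i => t i fun κ => F κ i) ∈ E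

/-- `K`, `D`, `D'` are disjoint sets of positions, and the operations do not distinguish `K ∪ D` and
`K ∪ D'`. -/
def Gadget {r k : ℕ} {X : Fin r → Type} (t : ∀ i, (Fin k → X i) → X i)
    (K D D' : Finset (Fin k)) : Prop :=
  Disjoint K D ∧ Disjoint K D' ∧ Disjoint D D' ∧
    ∀ i (a b : X i), (t i fun κ => if κ ∈ K ∪ D then a else b) =
      t i fun κ => if κ ∈ K ∪ D' then a else b

structure Star {r k : ℕ} {X : Fin r → Type} (t : ∀ i, (Fin k → X i) → X i) (E : Set (∀ i, X i))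
    (J : Type) where
  c₀ : Fin r
  c₁ : Fin r
  c₂ : Fin r
  h01 : c₀ ≠ c₁
  h02 : c₀ ≠ c₂
  h12 : c₁ ≠ c₂
  lin : Lin E
  cl : Closed t E
  idem : ∀ i a, (t i fun _ => a) = a
  j₀ : J
  A : J → ∀ i, X i
  B : J → ∀ i, X i
  hA : ∀ j, A j ∈ E
  hB : ∀ j, B j ∈ E
  h0 : A j₀ = B j₀
  hA1 : ∀ j, A j c₁ = A j₀ c₁
  hB0 : ∀ j, B j c₀ = A j₀ c₀
  hAB : ∀ j, A j c₂ = B j c₂
  inj : Function.Injective fun j => A j c₂

namespace Star

variable {r k : ℕ} {X : Fin r → Type} {t : ∀ i, (Fin k → X i) → X i} {E : Set (∀ i, X i)}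
  {J : Type} [DecidableEq J] (s : Star t E J)

def xx (w : Fin k → J) : X s.c₀ := t s.c₀ fun κ => s.A (w κ) s.c₀
def yy (w : Fin k → J) : X s.c₁ := t s.c₁ fun κ => s.B (w κ) s.c₁
def zz (w : Fin k → J) : X s.c₂ := t s.c₂ fun κ => s.A (w κ) s.c₂

/-- the sum of two assignments -/
def jn (u v : Fin k → J) : Fin k → J := fun κ => if u κ = s.j₀ then v κ else u κ

/-- the assignments have disjoint supports -/
def Dj (u v : Fin k → J) : Prop := ∀ κ, u κ = s.j₀ ∨ v κ = s.j₀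

/-- the value `j` on the set `S` -/
def sd (S : Finset (Fin k)) (j : J) : Fin k → J := fun κ => if κ ∈ S then j else s.j₀

/-- the zero assignment -/
def zr : Fin k → J := fun _ => s.j₀

theorem gen {u v : Fin k → J} (h : s.Dj u v) :
    ∃ e ∈ E, e s.c₀ = s.xx u ∧ e s.c₁ = s.yy v ∧ e s.c₂ = s.zz (s.jn u v) := by
  refine ⟨fun i => t i fun κ => (if u κ = s.j₀ then s.B (v κ) else s.A (u κ)) i,
    s.cl _ fun κ => ?_, ?_, ?_, ?_⟩
  · split_ifs
    · exact s.hB _
    · exact s.hA _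
  · show t s.c₀ _ = t s.c₀ _
    congr 1
    funext κ
    split_ifs with h1
    · rw [s.hB0, h1]
    · rfl
  · show t s.c₁ _ = t s.c₁ _
    congr 1
    funext κ
    split_ifs with h1
    · rfl
    · have h2 := (h κ).resolve_left h1
      rw [s.hA1, h2, s.h0]
  · show t s.c₂ _ = t s.c₂ _
    congr 1
    funext κ
    unfold jn
    split_ifs with h1
    · rw [s.hAB]
    · rfl

theorem dj_zr (w : Fin k → J) : s.Dj w s.zr := fun _ => Or.inr rfl
theorem zr_dj (w : Fin k → J) : s.Dj s.zr w := fun _ => Or.inl rfl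

theorem jn_zr (w : Fin k → J) : s.jn w s.zr = w := by
  funext κ
  unfold jn zr
  split_ifs with h
  · exact h.symm
  · rfl

theorem zr_jn (w : Fin k → J) : s.jn s.zr w = w := by
  funext κ
  unfold jn zr
  rw [if_pos rfl]

theorem jn_comm {u v : Fin k → J} (h : s.Dj u v) : s.jn u v = s.jn v u := by
  funext κ
  unfold jn
  rcases h κ with h1 | h1
  · rw [if_pos h1]
    split_ifs with h2
    · rw [h1, h2]
    · rfl
  · rw [if_pos h1]
    split_ifs with h2
    · rw [h1, h2]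
    · rfl

theorem zz_of_xx {w w' : Fin k → J} (h : s.xx w = s.xx w') : s.zz w = s.zz w' := by
  obtain ⟨e, he, h0, h1, h2⟩ := s.gen (s.dj_zr w)
  obtain ⟨e', he', h0', h1', h2'⟩ := s.gen (s.dj_zr w')
  have h3 : e = e' := s.lin e he e' he' _ _ s.h01 (by rw [h0, h0', h]) (by rw [h1, h1'])
  rw [jn_zr] at h2 h2'
  rw [← h2, ← h2', h3]

theorem xx_of_zz {w w' : Fin k → J} (h : s.zz w = s.zz w') : s.xx w = s.xx w' := by
  obtain ⟨e, he, h0, h1, h2⟩ := s.gen (s.dj_zr w)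
  obtain ⟨e', he', h0', h1', h2'⟩ := s.gen (s.dj_zr w')
  rw [jn_zr] at h2 h2'
  have h3 : e = e' := s.lin e he e' he' _ _ s.h12 (by rw [h1, h1']) (by rw [h2, h2', h])
  rw [← h0, ← h0', h3]

theorem zz_of_yy {w w' : Fin k → J} (h : s.yy w = s.yy w') : s.zz w = s.zz w' := by
  obtain ⟨e, he, h0, h1, h2⟩ := s.gen (s.zr_dj w)
  obtain ⟨e', he', h0', h1', h2'⟩ := s.gen (s.zr_dj w')
  have h3 : e = e' := s.lin e he e' he' _ _ s.h01 (by rw [h0, h0']) (by rw [h1, h1', h])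
  rw [zr_jn] at h2 h2'
  rw [← h2, ← h2', h3]

theorem yy_of_zz {w w' : Fin k → J} (h : s.zz w = s.zz w') : s.yy w = s.yy w' := by
  obtain ⟨e, he, h0, h1, h2⟩ := s.gen (s.zr_dj w)
  obtain ⟨e', he', h0', h1', h2'⟩ := s.gen (s.zr_dj w')
  rw [zr_jn] at h2 h2'
  have h3 : e = e' := s.lin e he e' he' _ _ s.h02 (by rw [h0, h0']) (by rw [h2, h2', h])
  rw [← h1, ← h1', h3]

theorem add {u v u' v' : Fin k → J} (h : s.Dj u v) (h' : s.Dj u' v') (hu : s.zz u = s.zz u')
    (hv : s.zz v = s.zz v') : s.zz (s.jn u v) = s.zz (s.jn u' v') := by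
  obtain ⟨e, he, h0, h1, h2⟩ := s.gen h
  obtain ⟨e', he', h0', h1', h2'⟩ := s.gen h'
  have h3 : e = e' := s.lin e he e' he' _ _ s.h01 (by rw [h0, h0', s.xx_of_zz hu])
    (by rw [h1, h1', s.yy_of_zz hv])
  rw [← h2, ← h2', h3]

theorem sub {u v u' v' : Fin k → J} (h : s.Dj u v) (h' : s.Dj u' v') (hu : s.zz u = s.zz u')
    (hw : s.zz (s.jn u v) = s.zz (s.jn u' v')) : s.zz v = s.zz v' := by
  obtain ⟨e, he, h0, h1, h2⟩ := s.gen h
  obtain ⟨e', he', h0', h1', h2'⟩ := s.gen h'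
  have h3 : e = e' := s.lin e he e' he' _ _ s.h02 (by rw [h0, h0', s.xx_of_zz hu])
    (by rw [h2, h2', hw])
  exact s.zz_of_yy (by rw [← h1, ← h1', h3])

theorem dj_sd {S T : Finset (Fin k)} (h : Disjoint S T) (i j : J) : s.Dj (s.sd S i) (s.sd T j) := by
  intro κ
  unfold sd
  by_cases h1 : κ ∈ S
  · exact Or.inr (if_neg fun h2 => Finset.disjoint_left.1 h h1 h2)
  · exact Or.inl (if_neg h1)

theorem jn_sd (S T : Finset (Fin k)) (j : J) :
    s.jn (s.sd S j) (s.sd T j) = s.sd (S ∪ T) j := by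
  funext κ
  unfold jn sd
  by_cases h1 : κ ∈ S <;> by_cases h2 : κ ∈ T <;> by_cases h3 : j = s.j₀ <;> simp [h1, h2, h3]

theorem zz_sd (S : Finset (Fin k)) (j : J) :
    s.zz (s.sd S j) = t s.c₂ fun κ => if κ ∈ S then s.A j s.c₂ else s.A s.j₀ s.c₂ := by
  unfold zz sd
  congr 1
  funext κ
  split_ifs <;> rfl

theorem zz_univ (j : J) : s.zz (s.sd univ j) = s.A j s.c₂ := by
  rw [zz_sd]
  simp only [mem_univ, if_true]
  exact s.idem _ _

theorem sd_empty (j : J) : s.sd ∅ j = s.zr := by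
  funext κ
  simp [sd, zr]

theorem sd_j₀ (S : Finset (Fin k)) : s.sd S s.j₀ = s.zr := by
  funext κ
  simp [sd, zr]

variable {K D D' : Finset (Fin k)}

theorem gad (h : Gadget t K D D') (j : J) : s.zz (s.sd D j) = s.zz (s.sd D' j) := by
  refine s.sub (s.dj_sd h.1 j j) (s.dj_sd h.2.1 j j) rfl ?_
  rw [jn_sd, jn_sd, zz_sd, zz_sd]
  exact h.2.2.2 _ _ _

theorem symm (h : Gadget t K D D') (i j : J) :
    s.zz (s.jn (s.sd D i) (s.sd D' j)) = s.zz (s.jn (s.sd D j) (s.sd D' i)) := by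
  rw [s.jn_comm (s.dj_sd h.2.2.1 j i)]
  exact s.add (s.dj_sd h.2.2.1 i j) (s.dj_sd h.2.2.1.symm i j) (s.gad h i) (s.gad h j).symm

theorem union {l : ℕ} (D : Fin l → Finset (Fin k)) (hD : ∀ a b, a ≠ b → Disjoint (D a) (D b))
    (j j' : J) (h : ∀ a, s.zz (s.sd (D a) j) = s.zz (s.sd (D a) j')) (T : Finset (Fin l)) :
    s.zz (s.sd (T.biUnion D) j) = s.zz (s.sd (T.biUnion D) j') := by
  induction T using Finset.induction_on with
  | empty => rw [biUnion_empty, sd_empty, sd_empty]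
  | insert a T ha ih =>
    have h1 : Disjoint (D a) (T.biUnion D) := by
      rw [Finset.disjoint_biUnion_right]
      intro b hb
      exact hD a b (fun h2 => ha (h2 ▸ hb))
    rw [biUnion_insert, ← jn_sd, ← jn_sd]
    exact s.add (s.dj_sd h1 _ _) (s.dj_sd h1 _ _) (h a) ih

theorem cover {l : ℕ} (D : Fin l → Finset (Fin k)) (hD : ∀ a b, a ≠ b → Disjoint (D a) (D b))
    (hU : univ.biUnion D = univ) (j j' : J)
    (h : ∀ a, s.zz (s.sd (D a) j) = s.zz (s.sd (D a) j')) : j = j' := by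
  have h1 := s.union D hD j j' h univ
  rw [hU, zz_univ, zz_univ] at h1
  exact s.inj h1

end Star

end Pool.T9h45.TP
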