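import Pool.Agent.T9h45.TP.Table

/-!
# Exactly `e` edges from a symmetric table
-/

set_option autoImplicit false

namespace Pool.T9h45.TP

open Finset

theorem exists_size {e : ℕ} (he : 3 ≤ e) (h5 : e ≠ 5) : ∃ q, 2 ≤ q ∧ 4 * q - 6 ≤ e ∧ e ≤ q * q := by
  refine ⟨Nat.sqrt (e - 1) + 1, ?_, ?_, ?_⟩
  · have : 1 ≤ Nat.sqrt (e - 1) := Nat.le_sqrt.2 (by omega)
    omega
  · have h1 := Nat.sqrt_le (e - 1)
    have h2 := Nat.sqrt_lt_self (n := e - 1) (by omega)
    generalize Nat.sqrt (e - 1) = m at h1 h2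
    rcases Nat.lt_or_ge m 3 with h3 | h3
    · interval_cases m <;> omega
    · have h4 : 3 * m ≤ m * m := Nat.mul_le_mul_right _ h3
      have h5 : 3 * m + (m - 3) ≤ m * m := by
        obtain ⟨a, rfl⟩ : ∃ a, m = a + 3 := ⟨m - 3, by omega⟩
        have : (a + 3) * (a + 3) = a * a + 6 * a + 9 := by ring
        rw [this]
        omega
      omega
  · have h1 := Nat.lt_succ_sqrt (e - 1)
    show e ≤ Nat.succ (Nat.sqrt (e - 1)) * Nat.succ (Nat.sqrt (e - 1))
    omega

variable {r : ℕ} {X : Fin r → Type} [∀ i, DecidableEq (X i)] {E : Set (∀ i, X i)}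

theorem Tab.five (τ : Tab E 3) (hlin : Lin E) : ∃ T : Finset (∀ i, X i), (T : Set (∀ i, X i)) ⊆ E ∧ #T = 5 ∧
    ∑ i, #(T.image fun x => x i) ≤ (r - 3) * 5 + 8 := by
  by_cases h : τ.e 1 1 τ.c₂ = τ.e 0 0 τ.c₂
  · let S : Finset (Fin 3 × Fin 3) := {(0, 0), (1, 0), (0, 1), (1, 1), (0, 2)}
    refine ⟨τ.T S, τ.T_sub S, (τ.card_T S).trans (by decide), ?_⟩
    refine sum_three τ.c₀ τ.c₁ τ.c₂ τ.h01 τ.h02 τ.h12 _ _ 2 3 3 (fun i => ?_) ?_ ?_ ?_
    · exact card_image_le.trans ((τ.card_T S).trans (by decide)).le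
    · refine (τ.im_le S (fun p => p.1) fun p p' h => ?_).trans (by decide)
      have h' : p.1 = p'.1 := h
      rw [h']
      exact τ.row _ _ _
    · refine (τ.im_le S (fun p => p.2) fun p p' h => ?_).trans (by decide)
      have h' : p.2 = p'.2 := h
      rw [h']
      exact τ.col _ _ _
    · refine (τ.im_le S (fun p => if p = (1, 1) then s(0, 0) else s(p.1, p.2))
        fun p p' h' => ?_).trans (by decide)
      have key : ∀ p : Fin 3 × Fin 3, τ.e p.1 p.2 τ.c₂ =
          τ.e (if p = (1, 1) then (0, 0) else p : Fin 3 × Fin 3).1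
            (if p = (1, 1) then (0, 0) else p : Fin 3 × Fin 3).2 τ.c₂ := by
        intro p
        split_ifs with h1
        · rw [h1]
          exact h
        · rfl
      rw [key p, key p']
      refine τ.sym' ?_
      convert h' using 1
      · split_ifs <;> rfl
      · split_ifs <;> rfl
  · obtain ⟨G, hG, hG1, hG2⟩ := τ.pend 0 1 1 rfl
    let S : Finset (Fin 3 × Fin 3) := {(0, 0), (1, 0), (0, 1), (1, 1)}
    have hGT : G ∉ τ.T S := by
      intro h1
      simp only [Tab.T, S, mem_image, mem_insert, mem_singleton] at h1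
      obtain ⟨p, hp, rfl⟩ := h1
      have hc : τ.e p.1 p.2 τ.c₁ = τ.e p.1 0 τ.c₁ := by
        rw [hG1]
        exact τ.col _ _ _
      have hp2 : p.2 = 0 := τ.ci _ _ _ hc
      rcases hp with rfl | rfl | rfl | rfl
      · exact h hG2.symm
      · have h3 := hlin _ (τ.he 1 0) _ (τ.he 1 1) τ.c₀ τ.c₂ τ.h02 (τ.row _ _ _) hG2
        have h4 : (0 : Fin 3) = 1 := τ.ci 1 _ _ (by rw [h3])
        exact absurd h4 (by decide)
      · exact absurd hp2 (by decide)
      · exact absurd hp2 (by decide)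
    have h4 : #(insert G (τ.T S)) = 5 := by
      rw [card_insert_of_notMem hGT, τ.card_T]
      rfl
    refine ⟨insert G (τ.T S), ?_, h4, ?_⟩
    · rw [coe_insert]
      exact Set.insert_subset hG (τ.T_sub S)
    refine sum_three τ.c₀ τ.c₁ τ.c₂ τ.h01 τ.h02 τ.h12 _ _ 3 2 3 (fun i => ?_) ?_ ?_ ?_
    · exact card_image_le.trans h4.le
    · rw [image_insert]
      refine (card_insert_le _ _).trans (Nat.succ_le_succ ?_)
      refine (τ.im_le S (fun p => p.1) fun p p' h => ?_).trans (by decide)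
      have h' : p.1 = p'.1 := h
      rw [h']
      exact τ.row _ _ _
    · have h5 : (insert G (τ.T S)).image (fun x => x τ.c₁) = (τ.T S).image fun x => x τ.c₁ := by
        rw [image_insert, insert_eq_of_mem]
        rw [mem_image]
        exact ⟨τ.e 0 0, mem_image.2 ⟨(0, 0), by decide, rfl⟩, hG1.symm⟩
      rw [h5]
      refine (τ.im_le S (fun p => p.2) fun p p' h => ?_).trans (by decide)
      have h' : p.2 = p'.2 := h
      rw [h']
      exact τ.col _ _ _
    · have h5 : (insert G (τ.T S)).image (fun x => x τ.c₂) = (τ.T S).image fun x => x τ.c₂ := by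
        rw [image_insert, insert_eq_of_mem]
        rw [mem_image]
        exact ⟨τ.e 1 1, mem_image.2 ⟨(1, 1), by decide, rfl⟩, hG2.symm⟩
      rw [h5]
      exact (τ.im_le S _ fun p p' h => τ.sym' h).trans (by decide)

theorem Tab.exact {q : ℕ} (τ : Tab E q) {e : ℕ} (hr : 3 ≤ r) (hq : 2 ≤ q) (h1 : 4 * q - 6 ≤ e)
    (h2 : e ≤ q * q) : ∃ T : Finset (∀ i, X i), (T : Set (∀ i, X i)) ⊆ E ∧ #T = e ∧
      ∑ i, #(T.image fun x => x i) ≤ (r - 2) * e + 3 := by
  obtain ⟨S, hS, hS2⟩ := positions hq h1 h2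
  refine ⟨τ.T S, τ.T_sub S, (τ.card_T S).trans hS, (τ.span_le S).trans ?_⟩
  obtain ⟨m, rfl⟩ : ∃ m, r = m + 3 := ⟨r - 3, by omega⟩
  rw [hS]
  have h3 : m + 3 - 3 = m := rfl
  have h4 : m + 3 - 2 = m + 1 := rfl
  rw [h3, h4, add_mul, one_mul]
  omega

theorem Tab.square {q : ℕ} (τ : Tab E q) (hr : 3 ≤ r) :
    ∃ T : Finset (∀ i, X i), (T : Set (∀ i, X i)) ⊆ E ∧ #T = q * q ∧
      2 * ∑ i, #(T.image fun x => x i) ≤ (2 * r - 5) * (q * q) + 5 * q := by
  refine ⟨τ.T univ, τ.T_sub _, ?_, ?_⟩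
  · rw [τ.card_T, card_univ, Fintype.card_prod, Fintype.card_fin]
  have h1 := τ.span_le univ
  have h2 : #(univ.image fun p : Fin q × Fin q => s(p.1, p.2)) ≤ (q + 1).choose 2 := by
    refine (card_le_univ _).trans ?_
    rw [Sym2.card, Fintype.card_fin]
  have h3 : 2 * (q + 1).choose 2 = q * q + q := by
    rw [Nat.choose_two_right, Nat.add_sub_cancel, Nat.mul_div_cancel']
    · ring
    · have := Nat.even_mul_succ_self q
      rw [mul_comm]
      exact this.two_dvd
  rw [card_univ, Fintype.card_prod, Fintype.card_fin] at h1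
  obtain ⟨m, rfl⟩ : ∃ m, r = m + 3 := ⟨r - 3, by omega⟩
  have h4 : m + 3 - 3 = m := rfl
  have h5 : 2 * (m + 3) - 5 = 2 * m + 1 := by omega
  rw [h4] at h1
  rw [h5, add_mul, one_mul, mul_assoc]
  omega

end Pool.T9h45.TP
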