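import Pool.Agent.T9h45.TP.Rel

/-!
# Unions of linear Taylor pieces
-/

set_option autoImplicit false

namespace Pool.T9h45.TP

open Finset Pool.Agent.R181.Maj

/-- From edges written by their coordinates to sets of vertices. -/
theorem transfer {V : Type} {r : ℕ} {X : Fin r → Type} [∀ i, DecidableEq (X i)]
    {f : (Σ i, X i) → V} (hf : Function.Injective f) {E : Set (∀ i, X i)} {H : Set (Finset V)}
    (hH : edge f '' E ⊆ H) (T : Finset (∀ i, X i)) (hT : (T : Set (∀ i, X i)) ⊆ E) :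
    ∃ T' : Finset (Finset V), (T' : Set (Finset V)) ⊆ H ∧ #T' = #T ∧
      (⋃ a ∈ T', (a : Set V)).ncard = ∑ i, #(T.image fun x => x i) := by
  classical
  refine ⟨T.image (edge f), ?_, card_image_of_injective _ (edge_injective hf), union_eq hf T⟩
  rw [coe_image]
  exact (Set.image_mono hT).trans hH

theorem exists_piece {V : Type} [Fintype V] {L : ℕ} {H : Set (Finset V)}
    {F : Fin L → Set (Finset V)} (hH : H = ⋃ i, F i) {c : ℝ} (hc : 0 ≤ c) (h : c < H.ncard) :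
    ∃ i, c / L < (F i).ncard := by
  classical
  by_contra hcon
  push Not at hcon
  have h1 : H.ncard ≤ ∑ i, (F i).ncard := by
    rw [hH]
    exact Set.ncard_iUnion_le_of_fintype F
  have h2 : (H.ncard : ℝ) ≤ ∑ i, ((F i).ncard : ℝ) := by exact_mod_cast h1
  have h3 : ∑ i, ((F i).ncard : ℝ) ≤ ∑ _i : Fin L, c / L := sum_le_sum fun i _ => hcon i
  rw [sum_const, card_univ, Fintype.card_fin, nsmul_eq_mul] at h3
  rcases Nat.eq_zero_or_pos L with h4 | h4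
  · have h6 : (L : ℝ) = 0 := by exact_mod_cast h4
    rw [h6, zero_mul] at h3
    linarith
  · have h5 : (0 : ℝ) < L := by exact_mod_cast h4
    rw [mul_div_cancel₀ _ h5.ne'] at h3
    linarith

theorem main_tab {r : ℕ} (hr : 3 ≤ r) {q : ℕ} (hq : 1 ≤ q) (L : ℕ) {ε : ℝ} (hε : 0 < ε) :
    ∃ N : ℕ, ∀ (V : Type) [Fintype V] (H : Set (Finset V)) (F : Fin L → Set (Finset V)),
      N ≤ Fintype.card V → (∀ i, TaylorPiece r (F i) ∧ Pool.T9h45.SD.Linear (F i)) →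
      H = ⋃ i, F i → ε * (Fintype.card V : ℝ) ^ 2 < H.ncard →
      ∃ (X : Fin r → Type) (f : (Σ i, X i) → V) (E : Set (∀ i, X i)), Function.Injective f ∧
        Lin E ∧ edge f '' E ⊆ H ∧ Nonempty (Tab E q) := by
  rcases Nat.eq_zero_or_pos L with hL | hL
  · refine ⟨0, fun V _ H F _ _ hH hc => ?_⟩
    subst hL
    exfalso
    rw [hH, Set.iUnion_of_empty, Set.ncard_empty, Nat.cast_zero] at hc
    have : (0 : ℝ) ≤ ε * (Fintype.card V : ℝ) ^ 2 := by positivity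
    linarith
  · have hL' : (0 : ℝ) < L := by exact_mod_cast hL
    obtain ⟨N, hN⟩ := piece_tab hr hq (div_pos hε hL')
    refine ⟨N, fun V _ H F hV hF hH hc => ?_⟩
    obtain ⟨i, hi⟩ := exists_piece hH (by positivity) hc
    obtain ⟨X, f, E, hf, hlin, hFE, hτ⟩ := hN V (F i) hV (hF i).1 (hF i).2 (by
      rwa [div_mul_eq_mul_div])
    refine ⟨X, f, E, hf, hlin, ?_, hτ⟩
    rw [← hFE, hH]
    exact Set.subset_iUnion F i

theorem main_exact (r e L : ℕ) (hr : 3 ≤ r) (he : 3 ≤ e) (ε : ℝ) (hε : 0 < ε) :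
    ∃ N : ℕ, ∀ (V : Type) [Fintype V] (H : Set (Finset V)) (F : Fin L → Set (Finset V)),
      N ≤ Fintype.card V → (∀ i, TaylorPiece r (F i) ∧ Pool.T9h45.SD.Linear (F i)) →
      H = ⋃ i, F i → SpanMore H e ((r - 2) * e + 3) →
      (H.ncard : ℝ) ≤ ε * (Fintype.card V : ℝ) ^ 2 := by
  classical
  by_cases h5 : e = 5
  · obtain ⟨N, hN⟩ := main_tab hr (q := 3) (by norm_num) L hε
    refine ⟨N, fun V _ H F hV hF hH hsp => ?_⟩
    by_contra hc
    push Not at hc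
    obtain ⟨X, f, E, hf, hlin, hEH, ⟨τ⟩⟩ := hN V H F hV hF hH hc
    obtain ⟨T, hT, hTc, hTs⟩ := τ.five hlin
    obtain ⟨T', hT', hTc', hTs'⟩ := transfer hf hEH T hT
    have h1 := hsp T' hT' (by rw [hTc', hTc, h5])
    rw [hTs', h5] at h1
    obtain ⟨m, rfl⟩ : ∃ m, r = m + 3 := ⟨r - 3, by omega⟩
    have h3 : m + 3 - 3 = m := rfl
    have h4 : m + 3 - 2 = m + 1 := rfl
    rw [h3] at hTs
    rw [h4] at h1
    omega
  · obtain ⟨q, hq, h1, h2⟩ := exists_size he h5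
    obtain ⟨N, hN⟩ := main_tab hr (q := q) (by omega) L hε
    refine ⟨N, fun V _ H F hV hF hH hsp => ?_⟩
    by_contra hc
    push Not at hc
    obtain ⟨X, f, E, hf, hlin, hEH, ⟨τ⟩⟩ := hN V H F hV hF hH hc
    obtain ⟨T, hT, hTc, hTs⟩ := τ.exact hr hq h1 h2
    obtain ⟨T', hT', hTc', hTs'⟩ := transfer hf hEH T hT
    have h3 := hsp T' hT' (by rw [hTc', hTc])
    rw [hTs'] at h3
    omega

theorem main_square (r q L : ℕ) (hr : 3 ≤ r) (ε : ℝ) (hε : 0 < ε) :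
    ∃ N : ℕ, ∀ (V : Type) [Fintype V] (H : Set (Finset V)) (F : Fin L → Set (Finset V)),
      N ≤ Fintype.card V → (∀ i, TaylorPiece r (F i) ∧ Pool.T9h45.SD.Linear (F i)) →
      H = ⋃ i, F i → ε * (Fintype.card V : ℝ) ^ 2 < H.ncard →
      ∃ T : Finset (Finset V), (T : Set (Finset V)) ⊆ H ∧ #T = q ^ 2 ∧
        2 * (⋃ a ∈ T, (a : Set V)).ncard ≤ (2 * r - 5) * q ^ 2 + 5 * q := by
  classical
  rcases Nat.eq_zero_or_pos q with hq | hq
  · subst hq
    refine ⟨0, fun V _ H F _ _ _ _ => ⟨∅, ?_, ?_, ?_⟩⟩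
    · simp
    · simp
    · simp
  · obtain ⟨N, hN⟩ := main_tab hr hq L hε
    refine ⟨N, fun V _ H F hV hF hH hc => ?_⟩
    obtain ⟨X, f, E, hf, hlin, hEH, ⟨τ⟩⟩ := hN V H F hV hF hH hc
    obtain ⟨T, hT, hTc, hTs⟩ := τ.square hr
    obtain ⟨T', hT', hTc', hTs'⟩ := transfer hf hEH T hT
    refine ⟨T', hT', by rw [hTc', hTc, sq], ?_⟩
    rw [hTs', sq]
    exact hTs

end Pool.T9h45.TP
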