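import Pool.Agent.T9h45.TP.Rich

/-!
# Olšák operations and weak near-unanimity operations
-/

set_option autoImplicit false

namespace Pool.T9h45.TP

open Finset

/-- `t` is idempotent and satisfies Olšák's identities
`t(x,y,y,y,x,x) = t(y,x,y,x,y,x) = t(y,y,x,x,x,y)`. -/
def IsOlsak {A : Type} (t : (Fin 6 → A) → A) : Prop :=
  (∀ a, (t fun _ => a) = a) ∧ ∀ x y, t ![x, y, y, y, x, x] = t ![y, x, y, x, y, x] ∧
    t ![y, x, y, x, y, x] = t ![y, y, x, x, x, y]

/-- `w` is an idempotent weak near-unanimity operation of arity `k`: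
`w(b,a,…,a) = w(a,b,a,…,a) = … = w(a,…,a,b)`. -/
def IsWNU {A : Type} (k : ℕ) (w : (Fin k → A) → A) : Prop :=
  (∀ a, (w fun _ => a) = a) ∧
    ∀ a b i j, w (Function.update (fun _ => a) i b) = w (Function.update (fun _ => a) j b)

variable {r : ℕ} {X : Fin r → Type} {E : Set (∀ i, X i)} {J : Type} [DecidableEq J] [Fintype J]

section olsak

variable {t : ∀ i, (Fin 6 → X i) → X i}

theorem olsak_gadget (ht : ∀ i, IsOlsak (t i)) :
    ∀ a : Fin 3, Gadget t ((![{5}, {4}, {3}] : Fin 3 → Finset (Fin 6)) a)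
      ((![{0, 4}, {2, 3}, {1, 5}] : Fin 3 → Finset (Fin 6)) a)
      ((![{1, 3}, {0, 5}, {2, 4}] : Fin 3 → Finset (Fin 6)) a) := by
  have e1 : ∀ i (a b : X i), (fun κ : Fin 6 => if κ = 0 ∨ κ = 4 ∨ κ = 5 then a else b) =
      ![a, b, b, b, a, a] := by
    intro i a b
    funext κ
    fin_cases κ <;> rfl
  have e2 : ∀ i (a b : X i), (fun κ : Fin 6 => if κ = 1 ∨ κ = 3 ∨ κ = 5 then a else b) =
      ![b, a, b, a, b, a] := by
    intro i a b
    funext κ
    fin_cases κ <;> rfl
  have e3 : ∀ i (a b : X i), (fun κ : Fin 6 => if κ = 2 ∨ κ = 3 ∨ κ = 4 then a else b) =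
      ![b, b, a, a, a, b] := by
    intro i a b
    funext κ
    fin_cases κ <;> rfl
  have m1 : ∀ S : Finset (Fin 6), S = {0, 4, 5} → ∀ i (a b : X i),
      (t i fun κ => if κ ∈ S then a else b) = t i ![a, b, b, b, a, a] := by
    intro S hS i a b
    rw [← e1, hS]
    simp only [mem_insert, mem_singleton]
  have m2 : ∀ S : Finset (Fin 6), S = {1, 3, 5} → ∀ i (a b : X i),
      (t i fun κ => if κ ∈ S then a else b) = t i ![b, a, b, a, b, a] := by
    intro S hS i a b
    rw [← e2, hS]
    simp only [mem_insert, mem_singleton]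
  have m3 : ∀ S : Finset (Fin 6), S = {2, 3, 4} → ∀ i (a b : X i),
      (t i fun κ => if κ ∈ S then a else b) = t i ![b, b, a, a, a, b] := by
    intro S hS i a b
    rw [← e3, hS]
    simp only [mem_insert, mem_singleton]
  intro a
  fin_cases a
  · refine ⟨by decide, by decide, by decide, fun i a b => ?_⟩
    rw [m1 _ (by decide), m2 _ (by decide)]
    exact ((ht i).2 a b).1
  · refine ⟨by decide, by decide, by decide, fun i a b => ?_⟩
    rw [m3 _ (by decide), m1 _ (by decide)]
    exact (((ht i).2 a b).1.trans ((ht i).2 a b).2).symm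
  · refine ⟨by decide, by decide, by decide, fun i a b => ?_⟩
    rw [m2 _ (by decide), m3 _ (by decide)]
    exact ((ht i).2 a b).2

theorem Star.olsak (s : Star t E J) (ht : ∀ i, IsOlsak (t i)) {q : ℕ} (hq : 1 ≤ q)
    (hJ : (q - 1) ^ 3 < Fintype.card J) : Nonempty (Tab E q) := by
  refine s.tab _ _ _ (olsak_gadget ht) (fun j j' h => ?_) hq hJ
  exact s.cover _ (by decide) (by decide) j j' h

end olsak

section wnu

variable {k : ℕ} {t : ∀ i, (Fin k → X i) → X i}

theorem wnu_gadget (ht : ∀ i, IsWNU k (t i)) {a b : Fin k} (hab : a ≠ b) :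
    Gadget t ∅ {a} {b} := by
  refine ⟨disjoint_empty_left _, disjoint_empty_left _, ?_, fun i x y => ?_⟩
  · rw [Finset.disjoint_singleton]
    exact hab
  · have h : ∀ c : Fin k, (fun κ => if κ ∈ (∅ ∪ {c} : Finset (Fin k)) then x else y) =
        Function.update (fun _ => y) c x := by
      intro c
      funext κ
      rw [empty_union, Function.update_apply]
      simp only [mem_singleton]
    rw [h, h]
    exact (ht i).2 _ _ _ _

theorem Star.wnu (s : Star t E J) (hk : 2 ≤ k) (ht : ∀ i, IsWNU k (t i)) {q : ℕ} (hq : 1 ≤ q)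
    (hJ : (q - 1) ^ 3 < Fintype.card J) : Nonempty (Tab E q) := by
  let a : Fin k := ⟨0, by omega⟩
  let b : Fin k := ⟨1, by omega⟩
  have hab : a ≠ b := by
    intro h
    have := congrArg Fin.val h
    simp [a, b] at this
  refine s.tab (l := 1) (fun _ => ∅) (fun _ => {a}) (fun _ => {b}) (fun _ => wnu_gadget ht hab)
    (fun j j' h => ?_) hq ?_
  · refine s.cover (l := k) (fun c => {c}) (fun c d hcd => ?_) ?_ j j' fun c => ?_
    · rw [Finset.disjoint_singleton]
      exact hcd
    · ext c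
      simp
    · by_cases hc : c = a
      · rw [hc]
        exact h 0
      · rw [s.gad (wnu_gadget ht hc), s.gad (wnu_gadget ht hc)]
        exact h 0
  · rw [pow_one]
    refine lt_of_le_of_lt ?_ hJ
    exact Nat.le_self_pow (by norm_num) _

end wnu

end Pool.T9h45.TP
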