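import Pool.Agent.T9h45.TP.Removal
import Pool.Agent.T9h45.SD.Bound
import Pool.Agent.T9h45.MC.Lines

/-!
# Taylor pieces
-/

set_option autoImplicit false

namespace Pool.T9h45.TP

open Finset Pool.Agent.R181.Maj

/-- `F` is a relation between `r` pairwise disjoint sets of vertices, closed under the componentwise
application of some Olšák operations on these sets. -/
def OlsakPiece {V : Type} (r : ℕ) (F : Set (Finset V)) : Prop :=
  ∃ (X : Fin r → Type) (t : ∀ i, (Fin 6 → X i) → X i) (f : (Σ i, X i) → V)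
    (E : Set (∀ i, X i)), Function.Injective f ∧ (∀ i, IsOlsak (t i)) ∧ Closed t E ∧
    F = edge f '' E

/-- `F` is a relation between `r` pairwise disjoint sets of vertices, closed under the componentwise
application of some weak near-unanimity operations (of the same arity `k ≥ 2`) on these sets. -/
def WNUPiece {V : Type} (r : ℕ) (F : Set (Finset V)) : Prop :=
  ∃ (k : ℕ) (X : Fin r → Type) (w : ∀ i, (Fin k → X i) → X i) (f : (Σ i, X i) → V)
    (E : Set (∀ i, X i)), 2 ≤ k ∧ Function.Injective f ∧ (∀ i, IsWNU k (w i)) ∧ Closed w E ∧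
    F = edge f '' E

/-- An Olšák piece or a weak near-unanimity piece. -/
def TaylorPiece {V : Type} (r : ℕ) (F : Set (Finset V)) : Prop := OlsakPiece r F ∨ WNUPiece r F

theorem lin_of_linear {V : Type} {r : ℕ} {X : Fin r → Type} {f : (Σ i, X i) → V}
    (hf : Function.Injective f) {E : Set (∀ i, X i)} (h : Pool.T9h45.SD.Linear (edge f '' E)) :
    Lin E := by
  intro x hx y hy i j hij h1 h2
  by_contra hxy
  have h3 := h _ ⟨x, hx, rfl⟩ _ ⟨y, hy, rfl⟩ fun h => hxy (edge_injective hf h)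
  have h4 : ∀ i, x i = y i → f ⟨i, x i⟩ ∈ ((edge f x : Finset V) : Set V) ∩ (edge f y : Finset V) := by
    intro i hi
    refine ⟨mem_coe.2 (Pool.T9h45.SD.mem_edge.2 ⟨i, rfl⟩),
      mem_coe.2 (Pool.T9h45.SD.mem_edge.2 ⟨i, by rw [hi]⟩)⟩
  have h5 := hf (h3 (h4 i h1) (h4 j h2))
  exact hij (Sigma.mk.inj h5).1

theorem ncard_le_parts {r : ℕ} {X : Fin r → Type} [∀ i, Fintype (X i)] {E : Set (∀ i, X i)}
    (hlin : Lin E) {c₀ c₁ : Fin r} (h01 : c₀ ≠ c₁) :
    E.ncard ≤ Fintype.card (X c₀) * Fintype.card (X c₁) := by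
  classical
  rw [Set.ncard_eq_toFinset_card', ← Fintype.card_prod, ← card_univ]
  refine card_le_card_of_injOn (fun x => (x c₀, x c₁)) (fun _ _ => mem_coe.2 (mem_univ _)) ?_
  intro x hx y hy h
  rw [Set.coe_toFinset] at hx hy
  have h' := Prod.mk.inj h
  exact hlin x hx y hy _ _ h01 h'.1 h'.2

theorem parts_le {V : Type} [Fintype V] {r : ℕ} {X : Fin r → Type} [∀ i, Fintype (X i)]
    {f : (Σ i, X i) → V} (hf : Function.Injective f) {c₀ c₁ c₂ : Fin r} (h01 : c₀ ≠ c₁)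
    (h02 : c₀ ≠ c₂) (h12 : c₁ ≠ c₂) :
    Fintype.card (X c₀) + Fintype.card (X c₁) + Fintype.card (X c₂) ≤ Fintype.card V := by
  classical
  have h1 : Fintype.card (Σ i, X i) ≤ Fintype.card V := Fintype.card_le_of_injective f hf
  rw [Fintype.card_sigma] at h1
  refine le_trans ?_ h1
  refine le_trans (le_of_eq ?_)
    (sum_le_sum_of_subset (subset_univ ({c₀, c₁, c₂} : Finset (Fin r))))
  rw [sum_insert, sum_insert, sum_singleton, add_assoc]
  · simpa using h12
  · simp only [mem_insert, mem_singleton, not_or]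
    exact ⟨h01, h02⟩

/-- A size from which on a dense linear piece contains a table of size `q`. -/
theorem exists_bound {ε : ℝ} (hε : 0 < ε) (N : ℕ) : ∃ n₀ : ℕ, ∀ n m e : ℕ, n₀ ≤ n →
    ε * (n : ℝ) ^ 2 < e → e ≤ m ^ 2 → (N : ℝ) * e < SimpleGraph.triangleRemovalBound ε * (m : ℝ) ^ 3 ∨
      e = 0 := by
  have hb := SimpleGraph.triangleRemovalBound_pos hε
  obtain ⟨n₀, hn₀⟩ := exists_nat_gt ((N : ℝ) / (SimpleGraph.triangleRemovalBound ε * Real.sqrt ε))
  refine ⟨n₀, fun n m e hn he hem => Or.inl ?_⟩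
  have hs : 0 < Real.sqrt ε := Real.sqrt_pos.2 hε
  have h1 : (e : ℝ) ≤ (m : ℝ) ^ 2 := by exact_mod_cast hem
  have h2 : ε * (n : ℝ) ^ 2 < (m : ℝ) ^ 2 := lt_of_lt_of_le he h1
  have h3 : Real.sqrt ε * n < m := by
    have h4 : (Real.sqrt ε * n) ^ 2 < (m : ℝ) ^ 2 := by
      rw [mul_pow, Real.sq_sqrt hε.le]
      exact h2
    exact lt_of_pow_lt_pow_left₀ 2 (Nat.cast_nonneg m) h4
  have h5 : (N : ℝ) < SimpleGraph.triangleRemovalBound ε * Real.sqrt ε * n := by
    have h6 : (n₀ : ℝ) ≤ n := by exact_mod_cast hn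
    rw [div_lt_iff₀ (mul_pos hb hs)] at hn₀
    calc (N : ℝ) < n₀ * (SimpleGraph.triangleRemovalBound ε * Real.sqrt ε) := hn₀
      _ ≤ n * (SimpleGraph.triangleRemovalBound ε * Real.sqrt ε) :=
        mul_le_mul_of_nonneg_right h6 (mul_pos hb hs).le
      _ = _ := by ring
  have h7 : (N : ℝ) < SimpleGraph.triangleRemovalBound ε * m := by
    refine h5.trans_le ?_
    rw [mul_assoc]
    exact mul_le_mul_of_nonneg_left h3.le hb.le
  have h8 : (0 : ℝ) < e := lt_of_le_of_lt (by positivity) he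
  calc (N : ℝ) * e < SimpleGraph.triangleRemovalBound ε * m * e := mul_lt_mul_of_pos_right h7 h8
    _ ≤ SimpleGraph.triangleRemovalBound ε * m * (m : ℝ) ^ 2 :=
      mul_le_mul_of_nonneg_left h1 (by positivity)
    _ = _ := by ring

theorem piece_tab {r : ℕ} (hr : 3 ≤ r) {q : ℕ} (hq : 1 ≤ q) {ε : ℝ} (hε : 0 < ε) :
    ∃ n₀ : ℕ, ∀ (V : Type) [Fintype V] (F : Set (Finset V)), n₀ ≤ Fintype.card V →
      TaylorPiece r F → Pool.T9h45.SD.Linear F → ε * (Fintype.card V : ℝ) ^ 2 < F.ncard →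
      ∃ (X : Fin r → Type) (f : (Σ i, X i) → V) (E : Set (∀ i, X i)), Function.Injective f ∧
        Lin E ∧ F = edge f '' E ∧ Nonempty (Tab E q) := by
  obtain ⟨n₀, hn₀⟩ := exists_bound hε ((q - 1) ^ 3)
  refine ⟨n₀, fun V _ F hV hF hlin hcard => ?_⟩
  have key : ∀ (k : ℕ) (X : Fin r → Type) (t : ∀ i, (Fin k → X i) → X i) (f : (Σ i, X i) → V)
      (E : Set (∀ i, X i)), Function.Injective f → (∀ i a, (t i fun _ => a) = a) → Closed t E →
      F = edge f '' E → (∀ (J : Type) [DecidableEq J] [Fintype J] (_ : Star t E J),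
        (q - 1) ^ 3 < Fintype.card J → Nonempty (Tab E q)) → Lin E ∧ Nonempty (Tab E q) := by
    intro k X t f E hf hid hcl hFE hstar
    have hlinE : Lin E := lin_of_linear hf (hFE ▸ hlin)
    have hfi : ∀ i, Function.Injective fun a : X i => f ⟨i, a⟩ := fun i a b hab =>
      eq_of_heq (Sigma.mk.inj (hf hab)).2
    have : ∀ i, Finite (X i) := fun i => Finite.of_injective _ (hfi i)
    let _ : ∀ i, Fintype (X i) := fun i => Fintype.ofFinite (X i)
    let c₀ : Fin r := ⟨0, by omega⟩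
    let c₁ : Fin r := ⟨1, by omega⟩
    let c₂ : Fin r := ⟨2, by omega⟩
    have h01 : c₀ ≠ c₁ := by simp [c₀, c₁]
    have h02 : c₀ ≠ c₂ := by simp [c₀, c₂]
    have h12 : c₁ ≠ c₂ := by simp [c₁, c₂]
    have hEF : F.ncard = E.ncard := by
      rw [hFE, Set.ncard_image_of_injective _ (edge_injective hf)]
    rw [hEF] at hcard
    obtain ⟨m, hm⟩ : ∃ m, m = Fintype.card (X c₀) + Fintype.card (X c₁) + Fintype.card (X c₂) :=
      ⟨_, rfl⟩
    have hmn : m ≤ Fintype.card V := hm.le.trans (parts_le hf h01 h02 h12)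
    have hEm : E.ncard ≤ m ^ 2 := by
      refine (ncard_le_parts hlinE h01).trans ?_
      rw [sq]
      exact Nat.mul_le_mul (by omega) (by omega)
    refine ⟨hlinE, ?_⟩
    rcases hn₀ _ m _ hV hcard hEm with h | h
    · have hE : ε * (m : ℝ) ^ 2 ≤ E.ncard := by
        refine le_trans ?_ hcard.le
        have h4 : (m : ℝ) ≤ Fintype.card V := by exact_mod_cast hmn
        exact mul_le_mul_of_nonneg_left (pow_le_pow_left₀ (Nat.cast_nonneg m) h4 2) hε.le
      obtain ⟨J, _, _, hJ, ⟨s⟩⟩ := exists_star hlinE hcl hid c₀ c₁ c₂ h01 h02 h12 ((q - 1) ^ 3) m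
        hm hE h
      exact hstar J s hJ
    · exfalso
      rw [h] at hcard
      have : (0 : ℝ) ≤ ε * (Fintype.card V : ℝ) ^ 2 := by positivity
      rw [Nat.cast_zero] at hcard
      linarith
  rcases hF with ⟨X, t, f, E, hf, ht, hcl, hFE⟩ | ⟨k, X, t, f, E, hk, hf, ht, hcl, hFE⟩
  · obtain ⟨h1, h2⟩ := key 6 X t f E hf (fun i a => (ht i).1 a) hcl hFE
      fun J _ _ s hJ => s.olsak ht hq hJ
    exact ⟨X, f, E, hf, h1, hFE, h2⟩
  · obtain ⟨h1, h2⟩ := key k X t f E hf (fun i a => (ht i).1 a) hcl hFE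
      fun J _ _ s hJ => s.wnu hk ht hq hJ
    exact ⟨X, f, E, hf, h1, hFE, h2⟩

end Pool.T9h45.TP
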