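import Pool.Agent.T9h45.TP.Piece

/-!
# Examples of Taylor pieces
-/

set_option autoImplicit false

namespace Pool.T9h45.TP

open Finset Pool.Agent.R181.Maj

variable {V : Type} {r : ℕ} {F : Set (Finset V)}

theorem malcev_olsak (h : Pool.T9h45.MC.MalcevPiece r F) : OlsakPiece r F := by
  obtain ⟨X, μ, f, E, hμ, hf, hE, rfl⟩ := h
  refine ⟨X, fun i x => μ i (x 1) (x 3) (x 2), f, E, hf, fun i => ⟨fun a => ?_, fun x y => ?_⟩,
    fun G hG => hE _ (hG 1) _ (hG 3) _ (hG 2), rfl⟩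
  · exact (hμ i a a).1
  · show μ i y y y = μ i x x y ∧ μ i x x y = μ i y x x
    rw [(hμ i y y).1, (hμ i y x).1, (hμ i y x).2]
    exact ⟨rfl, rfl⟩

theorem majority_wnu (h : MajorityPiece r F) : WNUPiece r F := by
  obtain ⟨X, μ, f, E, hμ, hf, hE, rfl⟩ := h
  have h1 : ∀ i (a b : X i) (c : Fin 3), μ i (Function.update (fun _ => a) c b 0)
      (Function.update (fun _ => a) c b 1) (Function.update (fun _ => a) c b 2) = a := by
    intro i a b c
    obtain ⟨h1, h2, h3⟩ := hμ i a b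
    fin_cases c
    · exact h3
    · exact h2
    · exact h1
  refine ⟨3, X, fun i x => μ i (x 0) (x 1) (x 2), f, E, by norm_num, hf,
    fun i => ⟨fun a => (hμ i a a).1, fun a b c d => ?_⟩,
    fun G hG => hE _ (hG 0) _ (hG 1) _ (hG 2), rfl⟩
  show μ i _ _ _ = μ i _ _ _
  rw [h1, h1]

theorem nu_wnu (h : Pool.T9h45.SD.NearUnanimityPiece r F) : WNUPiece r F := by
  obtain ⟨X, m, u, f, E, hm, hf, hu, hE, rfl⟩ := h
  refine ⟨m, X, u, f, E, by omega, hf, fun i => ⟨fun a => ?_, fun a b c d => ?_⟩, hE, rfl⟩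
  · have h1 := hu i a a ⟨0, by omega⟩
    rwa [Function.update_eq_self] at h1
  · rw [hu, hu]

theorem two_wnu (h : Pool.T9h45.SD.TwoSemilatticePiece r F) : WNUPiece r F := by
  obtain ⟨X, m, f, E, hf, hm, hE, rfl⟩ := h
  have h1 : ∀ i (a b : X i) (c : Fin 2), m i (Function.update (fun _ => a) c b 0)
      (Function.update (fun _ => a) c b 1) = m i a b := by
    intro i a b c
    fin_cases c
    · exact (hm i b a).2.1
    · rfl
  refine ⟨2, X, fun i x => m i (x 0) (x 1), f, E, le_rfl, hf,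
    fun i => ⟨fun a => (hm i a a).1, fun a b c d => ?_⟩, fun G hG => hE _ (hG 0) _ (hG 1), rfl⟩
  show m i _ _ = m i _ _
  rw [h1, h1]

/-- The lines `y = a + i b` as edges: the vertices are the pairs `(i, y)`, `i < r`, `y` modulo `p`. -/
theorem dense_example {p : ℕ} (hp : p.Prime) (hr : 3 ≤ r) (hrp : r ≤ p) :
    ∃ (V : Type) (_ : Fintype V) (F : Set (Finset V)), Fintype.card V = r * p ∧
      Pool.T9h45.MC.MalcevPiece r F ∧ Pool.T9h45.SD.Linear F ∧ F.ncard = p ^ 2 := by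
  classical
  have : Fact p.Prime := ⟨hp⟩
  have : NeZero p := ⟨hp.ne_zero⟩
  let g : ZMod p × ZMod p → Fin r → ZMod p := fun c i => c.1 + (i : ℕ) * c.2
  have hg2 : ∀ c c' i j, i ≠ j → g c i = g c' i → g c j = g c' j → c = c' := by
    intro c c' i j hij h1 h2
    have h1' : c.1 + (i : ℕ) * c.2 = c'.1 + (i : ℕ) * c'.2 := h1
    have h2' : c.1 + (j : ℕ) * c.2 = c'.1 + (j : ℕ) * c'.2 := h2
    have h3 : (((i : ℕ) : ZMod p) - (j : ℕ)) * (c.2 - c'.2) = 0 := by
      linear_combination h1' - h2'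
    have h4 := (mul_eq_zero.1 h3).resolve_left (Pool.T9h45.MC.cast_ne hrp hij)
    have h5 : c.2 = c'.2 := sub_eq_zero.1 h4
    refine Prod.ext ?_ h5
    rw [h5] at h1'
    exact add_right_cancel h1'
  let z : Fin r := ⟨0, by omega⟩
  let o : Fin r := ⟨1, by omega⟩
  have hzo : z ≠ o := by simp [z, o]
  have hg : Function.Injective g := fun c c' h =>
    hg2 c c' z o hzo (congrFun h z) (congrFun h o)
  have hF : Function.Injective (edge (V := Σ _ : Fin r, ZMod p) (X := fun _ => ZMod p) id) :=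
    edge_injective Function.injective_id
  refine ⟨Σ _ : Fin r, ZMod p, inferInstance,
    edge (V := Σ _ : Fin r, ZMod p) (X := fun _ => ZMod p) id '' Set.range g, ?_, ?_, ?_, ?_⟩
  · rw [Fintype.card_sigma]
    simp [ZMod.card]
  · refine ⟨fun _ => ZMod p, fun _ a b c => a - b + c, id, Set.range g,
      fun i a b => ⟨by ring, by ring⟩, Function.injective_id, ?_, rfl⟩
    rintro _ ⟨c, rfl⟩ _ ⟨c', rfl⟩ _ ⟨c'', rfl⟩
    refine ⟨c - c' + c'', ?_⟩
    funext i
    simp only [g, Prod.fst_add, Prod.fst_sub, Prod.snd_add, Prod.snd_sub]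
    ring
  · rintro _ ⟨_, ⟨c, rfl⟩, rfl⟩ _ ⟨_, ⟨c', rfl⟩, rfl⟩ hne u hu v hv
    rw [Set.mem_inter_iff, mem_coe, mem_coe, Pool.T9h45.SD.mem_edge, Pool.T9h45.SD.mem_edge]
      at hu hv
    obtain ⟨⟨i, hi⟩, ⟨i', hi'⟩⟩ := hu
    obtain ⟨⟨j, hj⟩, ⟨j', hj'⟩⟩ := hv
    by_contra huv
    have e1 : (⟨i, g c i⟩ : Σ _ : Fin r, ZMod p) = ⟨i', g c' i'⟩ := hi.trans hi'.symm
    have e2 : (⟨j, g c j⟩ : Σ _ : Fin r, ZMod p) = ⟨j', g c' j'⟩ := hj.trans hj'.symm
    rw [Sigma.mk.injEq] at e1 e2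
    obtain ⟨rfl, e1⟩ := e1
    obtain ⟨rfl, e2⟩ := e2
    have hij : i ≠ j := by
      rintro rfl
      exact huv (hi.symm.trans hj)
    exact hne (by rw [hg2 c c' i j hij (eq_of_heq e1) (eq_of_heq e2)])
  · rw [Set.ncard_image_of_injective _ hF, ← Set.image_univ, Set.ncard_image_of_injective _ hg,
      Set.ncard_univ, Nat.card_eq_fintype_card, Fintype.card_prod, ZMod.card, sq]

end Pool.T9h45.TP
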