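import Pool.Agent.T9h45.TP.Ops

/-!
# Large stars by the triangle removal lemma
-/

set_option autoImplicit false

namespace Pool.T9h45.TP

open Finset SimpleGraph TripartiteFromTriangles

section triples

variable {α β γ : Type} [Fintype α] [Fintype β] [Fintype γ] [DecidableEq α] [DecidableEq β]
  [DecidableEq γ]

theorem many_triangles (τ : Finset (α × β × γ)) (h0 : ∀ a b c a', (a, b, c) ∈ τ → (a', b, c) ∈ τ →
    a = a') (h1 : ∀ a b c b', (a, b, c) ∈ τ → (a, b', c) ∈ τ → b = b')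
    (h2 : ∀ a b c c', (a, b, c) ∈ τ → (a, b, c') ∈ τ → c = c') {ε : ℝ} (N m : ℕ)
    (hm : m = Fintype.card α + Fintype.card β + Fintype.card γ) (hτ : ε * (m : ℝ) ^ 2 ≤ #τ)
    (hN : (N : ℝ) * #τ < triangleRemovalBound ε * (m : ℝ) ^ 3) :
    ∃ a b c, (a, b, c) ∈ τ ∧ N < #(univ.filter fun z : γ => (∃ y, (a, y, z) ∈ τ) ∧
      ∃ x, (x, b, z) ∈ τ) := by
  have hED : ExplicitDisjoint τ := ⟨fun a b c a' => h0 a b c a', fun a b c b' => h1 a b c b',
    fun a b c c' => h2 a b c c'⟩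
  have hfar : (graph τ).FarFromTriangleFree ε := farFromTriangleFree τ (by
    rw [Nat.cast_pow, ← hm]
    exact hτ)
  have hcl := hfar.le_card_cliqueFinset
  have hcard : (Fintype.card (α ⊕ β ⊕ γ) : ℝ) = m := by
    rw [Fintype.card_sum, Fintype.card_sum, hm, add_assoc]
  rw [hcard] at hcl
  let Q : Finset (α × β × γ) := univ.filter fun p => (∃ z, (p.1, p.2.1, z) ∈ τ) ∧
    (∃ y, (p.1, y, p.2.2) ∈ τ) ∧ ∃ x, (x, p.2.1, p.2.2) ∈ τ
  have hsub : (graph τ).cliqueFinset 3 ⊆ Q.image toTriangle := by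
    intro s hs
    rw [mem_cliqueFinset_iff, is3Clique_iff] at hs
    obtain ⟨x, y, z, hxy, hxz, hyz, rfl⟩ := hs
    obtain ⟨a, b, c, habc, hab, hac, hbc⟩ := graph_triple hxy hxz hyz
    rw [mem_image]
    refine ⟨(a, b, c), ?_, habc⟩
    simp only [Q, mem_filter, mem_univ, true_and]
    exact ⟨Graph.in₀₁_iff.1 hab, Graph.in₀₂_iff.1 hac, Graph.in₁₂_iff.1 hbc⟩
  have hQ : #((graph τ).cliqueFinset 3) ≤ #Q := (card_le_card hsub).trans card_image_le
  by_contra hcon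
  push Not at hcon
  have hfib : #Q ≤ N * #(τ.image fun p => (p.1, p.2.1)) := by
    refine card_le_mul_card_image_of_maps_to (f := fun p : α × β × γ => (p.1, p.2.1)) ?_ N ?_
    · intro p hp
      simp only [Q, mem_filter, mem_univ, true_and] at hp
      obtain ⟨⟨z, hz⟩, -⟩ := hp
      exact mem_image.2 ⟨_, hz, rfl⟩
    · intro p hp
      rw [mem_image] at hp
      obtain ⟨⟨a, b, c⟩, habc, rfl⟩ := hp
      refine le_trans ?_ (hcon a b c habc)
      refine card_le_card_of_injOn (fun p => p.2.2) ?_ ?_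
      · intro p hp
        simp only [Q, mem_filter, mem_univ, true_and, coe_filter, Set.mem_setOf_eq,
          Prod.mk.injEq] at hp ⊢
        obtain ⟨⟨-, h3, h4⟩, h5, h6⟩ := hp
        rw [h5] at h3
        rw [h6] at h4
        exact ⟨h3, h4⟩
      · intro p hp p' hp' h
        simp only [mem_filter, coe_filter, Set.mem_setOf_eq, Prod.mk.injEq] at hp hp'
        have h' : p.2.2 = p'.2.2 := h
        exact Prod.ext (hp.2.1.trans hp'.2.1.symm) (Prod.ext (hp.2.2.trans hp'.2.2.symm) h')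
  have h3 : #((graph τ).cliqueFinset 3) ≤ N * #τ :=
    hQ.trans (hfib.trans (Nat.mul_le_mul_left _ card_image_le))
  have h4 : (#((graph τ).cliqueFinset 3) : ℝ) ≤ N * #τ := by exact_mod_cast h3
  linarith

end triples

variable {r k : ℕ} {X : Fin r → Type} {t : ∀ i, (Fin k → X i) → X i} {E : Set (∀ i, X i)}

theorem exists_star [∀ i, Fintype (X i)] (hlin : Lin E) (hcl : Closed t E)
    (hid : ∀ i a, (t i fun _ => a) = a) (c₀ c₁ c₂ : Fin r) (h01 : c₀ ≠ c₁) (h02 : c₀ ≠ c₂)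
    (h12 : c₁ ≠ c₂) {ε : ℝ} (N m : ℕ)
    (hm : m = Fintype.card (X c₀) + Fintype.card (X c₁) + Fintype.card (X c₂))
    (hE : ε * (m : ℝ) ^ 2 ≤ E.ncard)
    (hN : (N : ℝ) * E.ncard < triangleRemovalBound ε * (m : ℝ) ^ 3) :
    ∃ (J : Type) (_ : DecidableEq J) (_ : Fintype J), N < Fintype.card J ∧
      Nonempty (Star t E J) := by
  classical
  let pr : (∀ i, X i) → X c₀ × X c₁ × X c₂ := fun x => (x c₀, x c₁, x c₂)
  let τ : Finset (X c₀ × X c₁ × X c₂) := E.toFinset.image pr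
  have hmem : ∀ a b c, (a, b, c) ∈ τ ↔ ∃ e ∈ E, e c₀ = a ∧ e c₁ = b ∧ e c₂ = c := by
    intro a b c
    simp only [τ, pr, mem_image, Set.mem_toFinset, Prod.mk.injEq]
  have hcard : #τ = E.ncard := by
    rw [card_image_of_injOn, Set.ncard_eq_toFinset_card']
    intro x hx y hy h
    rw [Set.coe_toFinset] at hx hy
    have h' : pr x = pr y := h
    simp only [pr, Prod.mk.injEq] at h'
    exact hlin x hx y hy _ _ h01 h'.1 h'.2.1
  obtain ⟨a, b, c, habc, hbig⟩ := many_triangles τ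
    (fun a b c a' h h' => by
      obtain ⟨e, he, h0, h1, h2⟩ := (hmem _ _ _).1 h
      obtain ⟨e', he', h0', h1', h2'⟩ := (hmem _ _ _).1 h'
      rw [← h0, ← h0', hlin e he e' he' _ _ h12 (by rw [h1, h1']) (by rw [h2, h2'])])
    (fun a b c b' h h' => by
      obtain ⟨e, he, h0, h1, h2⟩ := (hmem _ _ _).1 h
      obtain ⟨e', he', h0', h1', h2'⟩ := (hmem _ _ _).1 h'
      rw [← h1, ← h1', hlin e he e' he' _ _ h02 (by rw [h0, h0']) (by rw [h2, h2'])])
    (fun a b c c' h h' => by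
      obtain ⟨e, he, h0, h1, h2⟩ := (hmem _ _ _).1 h
      obtain ⟨e', he', h0', h1', h2'⟩ := (hmem _ _ _).1 h'
      rw [← h2, ← h2', hlin e he e' he' _ _ h01 (by rw [h0, h0']) (by rw [h1, h1'])])
    (ε := ε) N m hm (by rw [hcard]; exact hE) (by rw [hcard]; exact hN)
  obtain ⟨e₀, he₀, g0, g1, g2⟩ := (hmem _ _ _).1 habc
  let J := {z : X c₂ // (∃ y, (a, y, z) ∈ τ) ∧ ∃ x, (x, b, z) ∈ τ}
  have hA : ∀ z : J, ∃ e ∈ E, e c₁ = b ∧ e c₂ = z.1 := by
    intro z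
    obtain ⟨x, hx⟩ := z.2.2
    obtain ⟨e, he, -, h1, h2⟩ := (hmem _ _ _).1 hx
    exact ⟨e, he, h1, h2⟩
  have hB : ∀ z : J, ∃ e ∈ E, e c₀ = a ∧ e c₂ = z.1 := by
    intro z
    obtain ⟨y, hy⟩ := z.2.1
    obtain ⟨e, he, h0, -, h2⟩ := (hmem _ _ _).1 hy
    exact ⟨e, he, h0, h2⟩
  choose A hAE hA1 hA2 using hA
  choose B hBE hB0 hB2 using hB
  let j₀ : J := ⟨c, ⟨b, habc⟩, ⟨a, habc⟩⟩
  have hA0 : A j₀ = e₀ := hlin _ (hAE _) _ he₀ _ _ h12 (by rw [hA1, g1]) (by rw [hA2, g2])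
  have hB0' : B j₀ = e₀ := hlin _ (hBE _) _ he₀ _ _ h02 (by rw [hB0, g0]) (by rw [hB2, g2])
  refine ⟨J, inferInstance, inferInstance, ?_, ⟨⟨c₀, c₁, c₂, h01, h02, h12, hlin, hcl, hid, j₀, A,
    B, hAE, hBE, by rw [hA0, hB0'], fun j => by rw [hA1, hA1], fun j => by rw [hB0, hA0, g0],
    fun j => by rw [hA2, hB2], ?_⟩⟩⟩
  · rw [Fintype.card_subtype]
    exact hbig
  · intro j j' h
    have h' : A j c₂ = A j' c₂ := h
    rw [hA2, hA2] at h'
    exact Subtype.ext h'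

end Pool.T9h45.TP
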