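import Pool.Agent.T9h45.TP.Five

/-!
# Large stars contain large symmetric tables
-/

set_option autoImplicit false

namespace Pool.T9h45.TP

open Finset

namespace Star

variable {r k : ℕ} {X : Fin r → Type} {t : ∀ i, (Fin k → X i) → X i} {E : Set (∀ i, X i)}
  {J : Type} [DecidableEq J] (s : Star t E J)

theorem exists_index [Fintype J] {Y : Type} [DecidableEq Y] (g : J → Y) (j₀ : J) {q : ℕ}
    (hq : q ≤ #(univ.image g)) (hq1 : 1 ≤ q) :
    ∃ f : Fin q → J, Function.Injective (g ∘ f) ∧ ∀ a : Fin q, (a : ℕ) = 0 → f a = j₀ := by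
  classical
  obtain ⟨T, hT1, hT2, hT3⟩ := Finset.exists_subsuperset_card_eq
    (s := {g j₀}) (t := univ.image g) (n := q)
    (by rw [singleton_subset_iff]; exact mem_image_of_mem _ (mem_univ _))
    (by rw [card_singleton]; exact hq1) hq
  have h0 : g j₀ ∈ T := singleton_subset_iff.1 hT1
  let φ : Fin q ≃ T := (T.equivFinOfCardEq hT3).symm
  let z : Fin q := ⟨0, hq1⟩
  let ψ : Fin q ≃ T := (Equiv.swap z (φ.symm ⟨g j₀, h0⟩)).trans φ
  have hψ : ψ z = ⟨g j₀, h0⟩ := by
    simp [ψ]
  have hex : ∀ a : Fin q, ∃ j, g j = (ψ a).1 := by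
    intro a
    have h1 := hT2 (ψ a).2
    rw [mem_image] at h1
    obtain ⟨j, -, hj⟩ := h1
    exact ⟨j, hj⟩
  refine ⟨fun a => if a = z then j₀ else (hex a).choose, ?_, ?_⟩
  · have h1 : (g ∘ fun a => if a = z then j₀ else (hex a).choose) = fun a => (ψ a).1 := by
      funext a
      show g (if a = z then j₀ else (hex a).choose) = _
      split_ifs with h
      · rw [h, hψ]
      · exact (hex a).choose_spec
    rw [h1]
    exact Subtype.val_injective.comp ψ.injective
  · intro a ha
    exact if_pos (Fin.ext ha)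

theorem mk_tab {K D D' : Finset (Fin k)} (h : Gadget t K D D') {q : ℕ} (f : Fin q → J)
    (hf : Function.Injective ((fun j => s.zz (s.sd D j)) ∘ f))
    (hf0 : ∀ a : Fin q, (a : ℕ) = 0 → f a = s.j₀) : Nonempty (Tab E q) := by
  choose e he h0 h1 h2 using fun i j : Fin q => s.gen (s.dj_sd h.2.2.1 (f i) (f j))
  refine ⟨⟨s.c₀, s.c₁, s.c₂, s.h01, s.h02, s.h12, e, he, ?_, ?_, ?_, ?_, ?_, ?_⟩⟩
  · intro i j j'
    rw [h0, h0]
  · intro i i' j
    rw [h1, h1]
  · intro i j
    rw [h2, h2]
    exact s.symm h _ _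
  · intro i i' j hij
    rw [h0, h0] at hij
    exact hf (s.zz_of_xx hij)
  · intro i j j' hij
    rw [h1, h1] at hij
    have h3 := s.zz_of_yy hij
    rw [← s.gad h, ← s.gad h] at h3
    exact hf h3
  · intro a i j ha
    obtain ⟨e', he', h0', h1', h2'⟩ := s.gen (s.dj_zr (s.jn (s.sd D (f i)) (s.sd D' (f j))))
    refine ⟨e', he', ?_, ?_⟩
    · rw [h1', h1, hf0 a ha, s.sd_j₀]
    · rw [h2', h2, s.jn_zr]

theorem tab [Fintype J] {l : ℕ} (K D D' : Fin l → Finset (Fin k))
    (hg : ∀ a, Gadget t (K a) (D a) (D' a))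
    (hsep : ∀ j j', (∀ a, s.zz (s.sd (D a) j) = s.zz (s.sd (D a) j')) → j = j') {q : ℕ}
    (hq : 1 ≤ q) (hJ : (q - 1) ^ l < Fintype.card J) : Nonempty (Tab E q) := by
  classical
  by_cases h : ∃ a, q ≤ #(univ.image fun j => s.zz (s.sd (D a) j))
  · obtain ⟨a, ha⟩ := h
    obtain ⟨f, hf, hf0⟩ := exists_index _ s.j₀ ha hq
    exact s.mk_tab (hg a) f hf hf0
  · exfalso
    push Not at h
    have h1 : Fintype.card J ≤ (q - 1) ^ l := by
      rw [← card_univ]
      have h2 : #(univ : Finset J) ≤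
          #(Fintype.piFinset fun a => univ.image fun j => s.zz (s.sd (D a) j)) := by
        refine card_le_card_of_injOn (fun j a => s.zz (s.sd (D a) j)) ?_ ?_
        · intro j _
          simp only [Fintype.coe_piFinset, Set.mem_pi]
          intro a _
          exact mem_coe.2 (mem_image_of_mem _ (mem_univ _))
        · intro j _ j' _ hjj
          exact hsep j j' fun a => congrFun hjj a
      refine h2.trans ?_
      rw [Fintype.card_piFinset]
      refine (prod_le_pow_card _ _ (q - 1) fun a _ => ?_).trans ?_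
      · have := h a
        omega
      · rw [card_univ, Fintype.card_fin]
    omega

end Star

end Pool.T9h45.TP
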