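import Pool.Agent.T9h45.TP.Core

/-!
# Choosing edges from a symmetric table
-/

set_option autoImplicit false

namespace Pool.T9h45.TP

open Finset

/-- A symmetric table: the edge `e i j` is in row `i`, column `j`, its coordinate `c₂` is the same
as the one of `e j i`. -/
structure Tab {r : ℕ} {X : Fin r → Type} (E : Set (∀ i, X i)) (q : ℕ) where
  c₀ : Fin r
  c₁ : Fin r
  c₂ : Fin r
  h01 : c₀ ≠ c₁
  h02 : c₀ ≠ c₂
  h12 : c₁ ≠ c₂
  e : Fin q → Fin q → ∀ i, X i
  he : ∀ i j, e i j ∈ E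
  row : ∀ i j j', e i j c₀ = e i j' c₀
  col : ∀ i i' j, e i j c₁ = e i' j c₁
  sym : ∀ i j, e i j c₂ = e j i c₂
  ri : ∀ i i' j, e i j c₀ = e i' j c₀ → i = i'
  ci : ∀ i j j', e i j c₁ = e i j' c₁ → j = j'
  pend : ∀ (a : Fin q) i j, (a : ℕ) = 0 → ∃ e' ∈ E, e' c₁ = e a a c₁ ∧ e' c₂ = e i j c₂

section count

variable {r : ℕ} {X : Fin r → Type} [∀ i, DecidableEq (X i)]

theorem sum_three (c₀ c₁ c₂ : Fin r) (h01 : c₀ ≠ c₁) (h02 : c₀ ≠ c₂) (h12 : c₁ ≠ c₂)
    (a : Fin r → ℕ) (n u v w : ℕ) (hn : ∀ i, a i ≤ n) (hu : a c₀ ≤ u) (hv : a c₁ ≤ v)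
    (hw : a c₂ ≤ w) : ∑ i, a i ≤ (r - 3) * n + (u + v + w) := by
  classical
  have h1 : ({c₀, c₁, c₂} : Finset (Fin r)).card = 3 := by
    rw [card_insert_of_notMem, card_insert_of_notMem, card_singleton]
    · simpa using h12
    · simp only [mem_insert, mem_singleton, not_or]
      exact ⟨h01, h02⟩
  rw [← sum_sdiff (subset_univ ({c₀, c₁, c₂} : Finset (Fin r)))]
  refine Nat.add_le_add ?_ ?_
  · refine le_trans (sum_le_card_nsmul _ _ n fun i _ => hn i) ?_
    rw [card_sdiff_of_subset (subset_univ _), h1, card_univ, Fintype.card_fin, smul_eq_mul]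
  · rw [sum_insert, sum_insert, sum_singleton]
    · omega
    · simpa using h12
    · simp only [mem_insert, mem_singleton, not_or]
      exact ⟨h01, h02⟩

end count

namespace Tab

variable {r : ℕ} {X : Fin r → Type} {E : Set (∀ i, X i)} {q : ℕ} (τ : Tab E q)

theorem inj {p p' : Fin q × Fin q} (h : τ.e p.1 p.2 = τ.e p'.1 p'.2) : p = p' := by
  have h1 : p.1 = p'.1 := by
    refine τ.ri _ _ p.2 ?_
    rw [h]
    exact τ.row _ _ _
  have h2 : p.2 = p'.2 := by
    refine τ.ci p.1 _ _ ?_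
    rw [h]
    exact τ.col _ _ _
  exact Prod.ext h1 h2

theorem sym' {p p' : Fin q × Fin q} (h : s(p.1, p.2) = s(p'.1, p'.2)) :
    τ.e p.1 p.2 τ.c₂ = τ.e p'.1 p'.2 τ.c₂ := by
  rw [Sym2.eq_iff] at h
  rcases h with ⟨h1, h2⟩ | ⟨h1, h2⟩
  · rw [h1, h2]
  · rw [h1, h2]
    exact τ.sym _ _

variable [∀ i, DecidableEq (X i)]

/-- the edges with the given positions -/
def T (S : Finset (Fin q × Fin q)) : Finset (∀ i, X i) := S.image fun p => τ.e p.1 p.2

theorem T_sub (S : Finset (Fin q × Fin q)) : (τ.T S : Set (∀ i, X i)) ⊆ E := by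
  intro x hx
  simp only [T, coe_image, Set.mem_image] at hx
  obtain ⟨p, -, rfl⟩ := hx
  exact τ.he _ _

theorem card_T (S : Finset (Fin q × Fin q)) : #(τ.T S) = #S :=
  card_image_of_injective _ fun _ _ h => τ.inj h

theorem im_le {Y : Type} [DecidableEq Y] (S : Finset (Fin q × Fin q)) {i : Fin r}
    (g : Fin q × Fin q → Y)
    (hg : ∀ p p', g p = g p' → τ.e p.1 p.2 i = τ.e p'.1 p'.2 i) :
    #((τ.T S).image fun x => x i) ≤ #(S.image g) := by
  classical
  rw [T, image_image]
  obtain ⟨u, hu, hinj, him⟩ := Finset.exists_subset_injOn_image_eq_of_surjOn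
    (f := (fun x : ∀ i, X i => x i) ∘ fun p : Fin q × Fin q => τ.e p.1 p.2) (s := (S : Set _))
    (t := S.image ((fun x : ∀ i, X i => x i) ∘ fun p : Fin q × Fin q => τ.e p.1 p.2))
    (by rw [coe_image]; exact Set.surjOn_image _ _)
  rw [← him, card_image_of_injOn hinj]
  calc #u = #(u.image g) := (card_image_of_injOn fun a ha b hb hab =>
        hinj ha hb (hg a b hab)).symm
    _ ≤ _ := card_le_card (image_subset_image (by exact_mod_cast hu))

/-- The number of the vertices of the edges with the positions in `S`. -/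
theorem span_le (S : Finset (Fin q × Fin q)) :
    ∑ i, #((τ.T S).image fun x => x i) ≤
      (r - 3) * #S + (q + q + #(S.image fun p => s(p.1, p.2))) := by
  refine sum_three τ.c₀ τ.c₁ τ.c₂ τ.h01 τ.h02 τ.h12 _ _ _ _ _ (fun i => ?_) ?_ ?_ ?_
  · exact card_image_le.trans (τ.card_T S).le
  · refine (τ.im_le S (fun p => p.1) fun p p' h => ?_).trans ?_
    · have h' : p.1 = p'.1 := h
      rw [h']
      exact τ.row _ _ _
    · exact (card_le_univ _).trans (Fintype.card_fin q).le
  · refine (τ.im_le S (fun p => p.2) fun p p' h => ?_).trans ?_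
    · have h' : p.2 = p'.2 := h
      rw [h']
      exact τ.col _ _ _
    · exact (card_le_univ _).trans (Fintype.card_fin q).le
  · exact τ.im_le S _ fun p p' h => τ.sym' h

end Tab

/-- Positions in a symmetric table. -/
theorem positions {q e : ℕ} (hq : 2 ≤ q) (h1 : 4 * q - 6 ≤ e) (h2 : e ≤ q * q) :
    ∃ S : Finset (Fin q × Fin q), #S = e ∧
      q + q + #(S.image fun p => s(p.1, p.2)) ≤ e + 3 := by
  classical
  let z : Fin q := ⟨0, by omega⟩
  let o : Fin q := ⟨1, by omega⟩
  let U1 : Finset (Fin q × Fin q) := (univ.filter fun j : Fin q => 0 < j.val).image fun j => (z, j)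
  let U2 : Finset (Fin q × Fin q) := (univ.filter fun j : Fin q => 1 < j.val).image fun j => (o, j)
  have hc : ∀ a : ℕ, a < q → #(univ.filter fun j : Fin q => a < j.val) = q - 1 - a := by
    intro a ha
    have h3 : (univ.filter fun j : Fin q => a < j.val) = Finset.Ioi (⟨a, ha⟩ : Fin q) := by
      ext j
      simp [Fin.lt_def]
    rw [h3, Fin.card_Ioi]
  have hU1 : #U1 = q - 1 := by
    rw [card_image_of_injective _ fun a b h => (Prod.mk.inj h).2, hc 0 (by omega)]
    omega
  have hU2 : #U2 = q - 2 := by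
    rw [card_image_of_injective _ fun a b h => (Prod.mk.inj h).2, hc 1 (by omega)]
    omega
  have hlt : ∀ p ∈ U1 ∪ U2, p.1 < p.2 := by
    intro p hp
    simp only [U1, U2, mem_union, mem_image, mem_filter, mem_univ, true_and] at hp
    rcases hp with ⟨j, hj, rfl⟩ | ⟨j, hj, rfl⟩
    · exact hj
    · exact hj
  have hd : Disjoint U1 U2 := by
    rw [Finset.disjoint_left]
    intro p hp hp'
    simp only [U1, U2, mem_image, mem_filter, mem_univ, true_and] at hp hp'
    obtain ⟨j, -, rfl⟩ := hp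
    obtain ⟨j', -, h⟩ := hp'
    have h3 := congrArg Fin.val (Prod.mk.inj h).1
    simp [z, o] at h3
  have hU : #(U1 ∪ U2) = 2 * q - 3 := by
    rw [card_union_of_disjoint hd, hU1, hU2]
    omega
  let U := U1 ∪ U2
  let S0 := U ∪ U.image Prod.swap
  have hd2 : Disjoint U (U.image Prod.swap) := by
    rw [Finset.disjoint_left]
    intro p hp hp'
    rw [mem_image] at hp'
    obtain ⟨p', h3, rfl⟩ := hp'
    have h4 := hlt _ hp
    have h5 := hlt _ h3
    exact absurd (h4.trans h5) (lt_irrefl _)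
  have hS0 : #S0 = 2 * (2 * q - 3) := by
    show #(U ∪ U.image Prod.swap) = _
    rw [card_union_of_disjoint hd2, card_image_of_injective _ Prod.swap_injective]
    show #(U1 ∪ U2) + #(U1 ∪ U2) = _
    rw [hU]
    omega
  obtain ⟨S, hS1, -, hS3⟩ := Finset.exists_subsuperset_card_eq (subset_univ S0) (n := e)
    (by rw [hS0]; omega) (by rw [card_univ, Fintype.card_prod, Fintype.card_fin]; exact h2)
  refine ⟨S, hS3, ?_⟩
  have h3 : (S.image fun p => s(p.1, p.2)) ⊆
      (U.image fun p => s(p.1, p.2)) ∪ ((S \ S0).image fun p => s(p.1, p.2)) := by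
    intro y hy
    rw [mem_image] at hy
    obtain ⟨p, hp, rfl⟩ := hy
    rw [mem_union, mem_image, mem_image]
    by_cases h4 : p ∈ S0
    · left
      rcases mem_union.1 h4 with h5 | h5
      · exact ⟨p, h5, rfl⟩
      · rw [mem_image] at h5
        obtain ⟨p', h6, rfl⟩ := h5
        exact ⟨p', h6, Sym2.eq_swap⟩
    · exact Or.inr ⟨p, mem_sdiff.2 ⟨hp, h4⟩, rfl⟩
  have h4 := card_le_card h3
  have h5 := card_union_le (U.image fun p : Fin q × Fin q => s(p.1, p.2))
    ((S \ S0).image fun p => s(p.1, p.2))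
  have h6 : #(U.image fun p : Fin q × Fin q => s(p.1, p.2)) ≤ 2 * q - 3 := by
    refine card_image_le.trans ?_
    exact hU.le
  have h7 : #((S \ S0).image fun p : Fin q × Fin q => s(p.1, p.2)) ≤ e - 2 * (2 * q - 3) := by
    refine card_image_le.trans ?_
    rw [card_sdiff_of_subset hS1, hS3, hS0]
  omega

end Pool.T9h45.TP
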